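import Mathlib

set_option autoImplicit false

/-! # Sums over periodic sets against decreasing functions -/

open Filter Set
open scoped Topology

namespace Pool.Agent.N860.HL

lemma count_mul (p : ℕ → Prop) [DecidablePred p] (W : ℕ) (hp : Function.Periodic p W) (q : ℕ) :
    Nat.count p (q * W) = q * Nat.count p W := by
  induction q with
  | zero => simp
  | succ q ih =>
    rw [add_mul, one_mul, Nat.count_add', Nat.add_comm]
    have h1 : (fun k => p (k + W)) = p := by
      funext k
      exact hp k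
    have h2 : Nat.count (fun k => p (k + W)) (q * W) = Nat.count p (q * W) := by
      simp only [Nat.count_eq_card_filter_range]
      congr 1
      apply Finset.filter_congr
      intro k _
      rw [show p (k + W) = p k from hp k]
    rw [h2, ih, add_mul, one_mul, Nat.add_comm]

lemma count_bound (p : ℕ → Prop) [DecidablePred p] (W : ℕ) (hW : 0 < W) (hp : Function.Periodic p W) (k : ℕ) :
    |(Nat.count p k : ℝ) - k * ((Nat.count p W : ℝ) / W)| ≤ W := by
  have hk : k = k % W + (k / W) * W := (Nat.mod_add_div' k W).symm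
  have h0 : Nat.count p k = Nat.count p (k % W) + (k / W) * Nat.count p W := by
    conv_lhs => rw [hk]
    rw [Nat.count_add', count_mul p W hp]
    congr 1
    simp only [Nat.count_eq_card_filter_range]
    congr 1
    apply Finset.filter_congr
    intro j _
    rw [show p (j + k / W * W) = p j from by
      have := (hp.nat_mul (k / W)) j
      simpa using this]
  have hW' : (0 : ℝ) < W := by exact_mod_cast hW
  have h1 : (k : ℝ) = ((k % W : ℕ) : ℝ) + ((k / W : ℕ) : ℝ) * W := by exact_mod_cast hk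
  have h2 : (Nat.count p k : ℝ) = Nat.count p (k % W) + ((k / W : ℕ) : ℝ) * Nat.count p W := by exact_mod_cast h0
  set δ : ℝ := (Nat.count p W : ℝ) / W with hδ
  have hδW : (Nat.count p W : ℝ) = δ * W := by rw [hδ]; field_simp
  have hδ0 : 0 ≤ δ := by positivity
  have hδ1 : δ ≤ 1 := by
    rw [hδ, div_le_one hW']
    exact_mod_cast Nat.count_le p
  have h3 : (Nat.count p k : ℝ) - k * δ = Nat.count p (k % W) - ((k % W : ℕ) : ℝ) * δ := by
    rw [h2, h1, hδW]
    ring
  have h4 : (Nat.count p (k % W) : ℝ) ≤ ((k % W : ℕ) : ℝ) := by exact_mod_cast Nat.count_le p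
  have h5 : ((k % W : ℕ) : ℝ) ≤ W := by exact_mod_cast (Nat.mod_lt k hW).le
  have h6 : (0 : ℝ) ≤ Nat.count p (k % W) := Nat.cast_nonneg _
  have h7 : (0 : ℝ) ≤ ((k % W : ℕ) : ℝ) := Nat.cast_nonneg _
  rw [h3, abs_le]
  constructor <;> nlinarith

lemma abel_bound (b g : ℕ → ℝ) (hg : ∀ n, g (n + 1) ≤ g n) (hg0 : ∀ n, 0 ≤ g n) (K : ℝ)
    (hB : ∀ k, |∑ i ∈ Finset.range k, b i| ≤ K) (N : ℕ) :
    |∑ i ∈ Finset.range N, b i * g i| ≤ K * g 0 := by
  have key : |∑ i ∈ Finset.range N, b i * g i - (∑ i ∈ Finset.range N, b i) * g N| ≤ K * (g 0 - g N) := by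
    induction N with
    | zero => simp
    | succ N ih =>
      have e1 : ∑ i ∈ Finset.range (N + 1), b i * g i - (∑ i ∈ Finset.range (N + 1), b i) * g (N + 1) =
          (∑ i ∈ Finset.range N, b i * g i - (∑ i ∈ Finset.range N, b i) * g N) +
            (∑ i ∈ Finset.range (N + 1), b i) * (g N - g (N + 1)) := by
        rw [Finset.sum_range_succ, Finset.sum_range_succ]
        ring
      rw [e1]
      refine (abs_add_le _ _).trans ?_
      have h1 : |(∑ i ∈ Finset.range (N + 1), b i) * (g N - g (N + 1))| ≤ K * (g N - g (N + 1)) := by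
        rw [abs_mul, abs_of_nonneg (sub_nonneg.2 (hg N))]
        exact mul_le_mul_of_nonneg_right (hB (N + 1)) (sub_nonneg.2 (hg N))
      linarith
  have h2 : |(∑ i ∈ Finset.range N, b i) * g N| ≤ K * g N := by
    rw [abs_mul, abs_of_nonneg (hg0 N)]
    exact mul_le_mul_of_nonneg_right (hB N) (hg0 N)
  have h3 : ∑ i ∈ Finset.range N, b i * g i =
      (∑ i ∈ Finset.range N, b i * g i - (∑ i ∈ Finset.range N, b i) * g N) + (∑ i ∈ Finset.range N, b i) * g N := by
    ring
  rw [h3]
  refine (abs_add_le _ _).trans ?_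
  linarith

/-- a sum over a periodic set against a decreasing function is the density times the integral, up to a
constant -/
lemma periodic_integral (p : ℕ → Prop) [DecidablePred p] (W : ℕ) (hW : 0 < W) (hp : Function.Periodic p W)
    (g : ℝ → ℝ) (hg : AntitoneOn g (Ici 0)) (hg0 : ∀ t, 0 ≤ t → 0 ≤ g t) (x : ℕ) :
    |∑ m ∈ Finset.range (x + 1), (if p m then g m else 0) -
      ((Nat.count p W : ℝ) / W) * ∫ t in (0:ℝ)..x, g t| ≤ (W + 1) * g 0 := by
  set δ : ℝ := (Nat.count p W : ℝ) / W with hδ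
  have hW' : (0 : ℝ) < W := by exact_mod_cast hW
  have hδ0 : 0 ≤ δ := by positivity
  have hδ1 : δ ≤ 1 := by
    rw [hδ, div_le_one hW']
    exact_mod_cast Nat.count_le p
  have h1 : |∑ m ∈ Finset.range (x + 1), ((if p m then (1:ℝ) else 0) - δ) * g m| ≤ W * g ((0 : ℕ) : ℝ) := by
    apply abel_bound (fun m => (if p m then (1:ℝ) else 0) - δ) (fun m => g m)
    · intro n
      exact hg (mem_Ici.2 (Nat.cast_nonneg n)) (mem_Ici.2 (Nat.cast_nonneg (n + 1))) (by push_cast; linarith)
    · intro n
      exact hg0 _ (Nat.cast_nonneg n)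
    · intro k
      have := count_bound p W hW hp k
      rw [Finset.sum_sub_distrib, Finset.sum_boole, Finset.sum_const, Finset.card_range, nsmul_eq_mul]
      rwa [Nat.count_eq_card_filter_range] at this
  have hgx : AntitoneOn g (Icc (0:ℝ) (0 + (x : ℕ))) := hg.mono fun t ht => ht.1
  have h2 := hgx.integral_le_sum
  have h3 := hgx.sum_le_integral
  simp only [zero_add] at h2 h3
  have h4 : ∑ m ∈ Finset.range (x + 1), g m = ∑ m ∈ Finset.range x, g m + g x := Finset.sum_range_succ _ _
  have h5 : ∑ m ∈ Finset.range (x + 1), g m = ∑ m ∈ Finset.range x, g ((m + 1 : ℕ) : ℝ) + g 0 := by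
    rw [Finset.sum_range_succ']
    simp
  have h6 : 0 ≤ g x := hg0 _ (Nat.cast_nonneg x)
  have h7 : ∑ m ∈ Finset.range (x + 1), (if p m then g m else 0) =
      ∑ m ∈ Finset.range (x + 1), ((if p m then (1:ℝ) else 0) - δ) * g m + δ * ∑ m ∈ Finset.range (x + 1), g m := by
    rw [Finset.mul_sum, ← Finset.sum_add_distrib]
    refine Finset.sum_congr rfl fun m _ => ?_
    split_ifs <;> ring
  rw [h7]
  set I := ∫ t in (0:ℝ)..x, g t
  set G := ∑ m ∈ Finset.range (x + 1), g m
  have h8 : |G - I| ≤ g 0 := by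
    rw [abs_le]
    constructor <;> linarith [hg0 0 le_rfl]
  have h9 : |δ * (G - I)| ≤ g 0 := by
    rw [abs_mul, abs_of_nonneg hδ0]
    calc δ * |G - I| ≤ 1 * g 0 := mul_le_mul hδ1 h8 (abs_nonneg _) zero_le_one
      _ = g 0 := one_mul _
  set Z := ∑ m ∈ Finset.range (x + 1), ((if p m then (1:ℝ) else 0) - δ) * g m
  have e : Z + δ * G - δ * I = Z + δ * (G - I) := by ring
  rw [e]
  refine (abs_add_le _ _).trans ?_
  rw [Nat.cast_zero] at h1
  linarith

end Pool.Agent.N860.HL
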