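import Mathlib
import Pool.Agent.R528.RM.BHOut

set_option autoImplicit false

/-! # The local factors of `x² + x + A` -/

open Filter Set Polynomial
open scoped Topology

namespace Pool.Agent.N860.HL

open Pool.Agent.R528.RM

/-- the polynomial -/
noncomputable def Fp (A : ℕ) : Finset ℤ[X] := {X ^ 2 + X + C (A : ℤ)}

lemma Fp_card (A : ℕ) : (Fp A).card = 1 := Finset.card_singleton _

lemma Fp_eval (A : ℕ) (n : ℤ) : (X ^ 2 + X + C (A : ℤ) : ℤ[X]).eval n = n ^ 2 + n + A := by simp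

lemma good_iff (A W n : ℕ) : good (Fp A) W n ↔ Nat.Coprime (n ^ 2 + n + A) W := by
  unfold good Fp
  simp only [Finset.mem_singleton, forall_eq, Fp_eval]
  have : ((n : ℤ) ^ 2 + n + A) = ((n ^ 2 + n + A : ℕ) : ℤ) := by push_cast; ring
  rw [this, Int.gcd_natCast_natCast]

lemma omega_eq (A p : ℕ) : omegaF (Fp A) p = {r : ℕ | r < p ∧ (p : ℤ) ∣ (r : ℤ) ^ 2 + r + A}.ncard := by
  unfold omegaF Fp
  simp only [Finset.prod_singleton, Fp_eval]

lemma omega_two (A : ℕ) (hA : Odd A) : omegaF (Fp A) 2 = 0 := by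
  rw [omega_eq]
  rw [Set.ncard_eq_zero (by exact (Set.finite_lt_nat 2).subset fun r hr => hr.1)]
  ext r
  simp only [Set.mem_ofPred_eq, Set.mem_empty_iff_false, iff_false, not_and]
  intro _ hdvd
  obtain ⟨k, hk⟩ := hA
  have h1 : Even ((r : ℤ) ^ 2 + r) := by
    have := Int.even_mul_succ_self (r : ℤ)
    have e : (r : ℤ) ^ 2 + r = r * (r + 1) := by ring
    rwa [e]
  obtain ⟨j, hj⟩ := h1
  rw [hj, hk] at hdvd
  push_cast at hdvd
  omega

lemma omega_odd (A p : ℕ) (hp : p.Prime) (hp2 : p ≠ 2) :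
    (omegaF (Fp A) p : ℤ) = jacobiSym (1 - 4 * (A : ℤ)) p + 1 := by
  classical
  have : Fact p.Prime := ⟨hp⟩
  have h1 := legendreSym.card_sqrts p hp2 (1 - 4 * (A : ℤ))
  rw [jacobiSym.legendreSym.to_jacobiSym] at h1
  rw [← h1, omega_eq]
  norm_cast
  rw [← Set.ncard_eq_toFinset_card']
  have h2 : (2 : ZMod p) ≠ 0 := by
    intro h
    have h3 : ((2 : ℕ) : ZMod p) = 0 := by exact_mod_cast h
    rw [ZMod.natCast_eq_zero_iff] at h3
    exact hp2 ((Nat.prime_dvd_prime_iff_eq hp Nat.prime_two).1 h3)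
  have h4 : (4 : ZMod p) ≠ 0 := by
    have : (4 : ZMod p) = 2 * 2 := by norm_num
    rw [this]
    exact mul_ne_zero h2 h2
  refine Set.ncard_congr (fun r _ => (2 * (r : ZMod p) + 1)) ?_ ?_ ?_
  · rintro r ⟨hr1, hr2⟩
    have h5 : ((r ^ 2 + r + A : ℕ) : ZMod p) = 0 := (ZMod.natCast_eq_zero_iff _ _).2 hr2
    push_cast at h5
    simp only [Set.mem_ofPred_eq]
    push_cast
    linear_combination 4 * h5
  · rintro a b ⟨ha, _⟩ ⟨hb, _⟩ hab
    have h5 : (2 : ZMod p) * ((a : ZMod p) - b) = 0 := by linear_combination hab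
    have h6 : (a : ZMod p) = b := by
      rcases mul_eq_zero.1 h5 with h | h
      · exact absurd h h2
      · exact sub_eq_zero.1 h
    have h7 := (ZMod.natCast_eq_natCast_iff' a b p).1 h6
    rwa [Nat.mod_eq_of_lt ha, Nat.mod_eq_of_lt hb] at h7
  · intro x hx
    simp only [Set.mem_ofPred_eq] at hx
    push_cast at hx
    refine ⟨((x - 1) / 2 : ZMod p).val, ⟨ZMod.val_lt _, ?_⟩, ?_⟩
    · rw [← ZMod.natCast_eq_zero_iff]
      push_cast
      rw [ZMod.natCast_zmod_val]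
      have h5 : (4 : ZMod p) * (((x - 1) / 2) ^ 2 + (x - 1) / 2 + A) = 0 := by
        field_simp
        linear_combination 4 * hx
      rcases mul_eq_zero.1 h5 with h | h
      · exact absurd h h4
      · exact h
    · rw [ZMod.natCast_zmod_val]
      field_simp
      ring

/-- the truncated constant -/
noncomputable def coef (Q : Finset ℕ) (A : ℕ) : ℝ :=
  (if 2 ∈ Q then 1 else 1 / 2) * ∏ p ∈ Q.erase 2, (1 - (jacobiSym (1 - 4 * (A : ℤ)) p : ℝ) / ((p : ℝ) - 1))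

lemma coef_eq (Q : Finset ℕ) (hQ : ∀ p ∈ Q, p.Prime) (A : ℕ) (hA : Odd A) :
    ((Nat.count (good (Fp A) (∏ p ∈ Q, p)) (∏ p ∈ Q, p) : ℝ) / ((∏ p ∈ Q, p : ℕ) : ℝ)) *
      (((∏ p ∈ Q, p : ℕ) : ℝ) / Nat.totient (∏ p ∈ Q, p)) = 2 * coef Q A := by
  classical
  have h1 := const_prod (Fp A) Q hQ
  rw [Fp_card, pow_one] at h1
  rw [h1]
  simp only [pow_one]
  have h2 : (Nat.count (good (Fp A) 2) 2 : ℝ) / (2 : ℕ) * (1 - 1 / ((2 : ℕ) : ℝ))⁻¹ = 2 := by
    have h3 := omega_good (Fp A) Nat.prime_two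
    rw [omega_two A hA, add_zero] at h3
    rw [h3]
    norm_num
  have h4 : ∀ p ∈ Q.erase 2, (Nat.count (good (Fp A) p) p : ℝ) / p * (1 - 1 / (p : ℝ))⁻¹ =
      1 - (jacobiSym (1 - 4 * (A : ℤ)) p : ℝ) / ((p : ℝ) - 1) := by
    intro p hp
    rw [Finset.mem_erase] at hp
    have hpp := hQ p hp.2
    have h3 := omega_good (Fp A) hpp
    have h5 := omega_odd A p hpp hp.1
    have h6 : (Nat.count (good (Fp A) p) p : ℝ) + omegaF (Fp A) p = p := by exact_mod_cast h3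
    have h7 : (omegaF (Fp A) p : ℝ) = (jacobiSym (1 - 4 * (A : ℤ)) p : ℝ) + 1 := by exact_mod_cast h5
    have h8 : (1 : ℝ) < p := by exact_mod_cast hpp.one_lt
    have h9 : (p : ℝ) - 1 ≠ 0 := by linarith
    have h10 : (p : ℝ) ≠ 0 := by linarith
    have h11 : (Nat.count (good (Fp A) p) p : ℝ) = p - 1 - (jacobiSym (1 - 4 * (A : ℤ)) p : ℝ) := by linarith
    rw [h11, one_sub_div h10, inv_div]
    field_simp
  unfold coef
  by_cases h : 2 ∈ Q
  · rw [if_pos h, one_mul, ← Finset.mul_prod_erase Q _ h, h2, Finset.prod_congr rfl h4]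
  · rw [if_neg h, Finset.erase_eq_of_notMem h]
    rw [Finset.erase_eq_of_notMem h] at h4
    rw [Finset.prod_congr rfl h4]
    ring

/-- a lower bound which does not depend on `A` -/
lemma coef_ge (Q : Finset ℕ) (hQ : ∀ p ∈ Q, p.Prime) (A : ℕ) :
    1 / 2 * ∏ p ∈ Q.erase 2, (1 - 1 / ((p : ℝ) - 1)) ≤ coef Q A ∧
      0 < ∏ p ∈ Q.erase 2, (1 - 1 / ((p : ℝ) - 1)) := by
  have h3 : ∀ p ∈ Q.erase 2, (3 : ℝ) ≤ p := by
    intro p hp
    rw [Finset.mem_erase] at hp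
    have := (hQ p hp.2).two_le
    have h : 3 ≤ p := by omega
    exact_mod_cast h
  have h0 : 0 < ∏ p ∈ Q.erase 2, (1 - 1 / ((p : ℝ) - 1)) := by
    refine Finset.prod_pos fun p hp => ?_
    have := h3 p hp
    rw [sub_pos, div_lt_one (by linarith)]
    linarith
  refine ⟨?_, h0⟩
  unfold coef
  have h1 : ∏ p ∈ Q.erase 2, (1 - 1 / ((p : ℝ) - 1)) ≤
      ∏ p ∈ Q.erase 2, (1 - (jacobiSym (1 - 4 * (A : ℤ)) p : ℝ) / ((p : ℝ) - 1)) := by
    refine Finset.prod_le_prod ?_ ?_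
    · intro p hp
      have := h3 p hp
      rw [sub_nonneg, div_le_one (by linarith)]
      linarith
    · intro p hp
      have h5 := h3 p hp
      have h6 : (jacobiSym (1 - 4 * (A : ℤ)) p : ℝ) ≤ 1 := by
        have : jacobiSym (1 - 4 * (A : ℤ)) p ≤ 1 := by
          rcases jacobiSym.trichotomy (1 - 4 * (A : ℤ)) p with h | h | h <;> omega
        exact_mod_cast this
      have h7 : (jacobiSym (1 - 4 * (A : ℤ)) p : ℝ) / ((p : ℝ) - 1) ≤ 1 / ((p : ℝ) - 1) :=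
        div_le_div_of_nonneg_right h6 (by linarith)
      linarith
  have h2 : (1 / 2 : ℝ) ≤ (if 2 ∈ Q then 1 else 1 / 2) := by split_ifs <;> norm_num
  exact mul_le_mul h2 h1 h0.le (by linarith)

end Pool.Agent.N860.HL
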