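import Mathlib
import Pool.Agent.N860.HL.Ana
import Pool.Agent.N860.HL.Const
import Pool.Agent.N909.TF.Tools

set_option autoImplicit false

/-! # Expected numbers of chosen values of `x² + x + A`, uniformly in `A` -/

open MeasureTheory Filter Set Polynomial
open scoped Topology

namespace Pool.Agent.N860.HL

open Pool.Agent.R528.RM Pool.Agent.N909.TF

lemma log_ge {A : ℕ} (hA : 3 ≤ A) {t : ℝ} (ht : 0 ≤ t) : 1 ≤ Real.log (t ^ 2 + t + A) := by
  have h1 : (3 : ℝ) ≤ A := by exact_mod_cast hA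
  rw [Real.le_log_iff_exp_le (by positivity)]
  have := Real.exp_one_lt_d9
  nlinarith [sq_nonneg t]

/-- the comparison of the expected number with the conjectured main term -/
lemma main_bound (Q : Finset ℕ) (hQ : ∀ p ∈ Q, p.Prime) : ∃ K : ℝ, 0 ≤ K ∧ ∀ A : ℕ, Odd A → 3 ≤ A → ∀ x : ℕ,
    |∑ m ∈ Finset.range (x + 1), rhoW (∏ p ∈ Q, p) (m ^ 2 + m + A) -
      coef Q A * (2 * ∫ t in (0:ℝ)..x, 1 / Real.log (t ^ 2 + t + A))| ≤ K := by
  classical
  set W := ∏ p ∈ Q, p with hWdef
  have hW : 0 < W := Finset.prod_pos fun q hq => (hQ q hq).pos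
  have hc := cQ_ge W hW
  set c : ℝ := (W : ℝ) / Nat.totient W with hcdef
  refine ⟨(W + 1) * c + (Real.exp c + 1) * c, by positivity, fun A hA hA3 x => ?_⟩
  have h1 := periodic_integral (good (Fp A) W) W hW (good_periodic (Fp A) W)
    (fun t => c / Real.log (t ^ 2 + t + A)) (by
      intro s hs t ht hst
      have h1 := log_ge hA3 (mem_Ici.1 hs)
      have hs' : 0 ≤ s := hs
      have hA0 : (0 : ℝ) < A := by exact_mod_cast (show 0 < A by omega)
      apply div_le_div_of_nonneg_left (by linarith) (by linarith)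
      apply Real.log_le_log (by positivity)
      have : s ^ 2 ≤ t ^ 2 := by
        apply pow_le_pow_left₀ hs' hst
      linarith) (fun t ht => div_nonneg (by linarith) (by linarith [log_ge hA3 ht])) x
  have hg0 : c / Real.log ((0 : ℝ) ^ 2 + 0 + A) ≤ c := by
    apply div_le_self (by linarith)
    exact log_ge hA3 le_rfl
  have h2 : ((Nat.count (good (Fp A) W) W : ℝ) / W) * ∫ t in (0:ℝ)..x, c / Real.log (t ^ 2 + t + A) =
      coef Q A * (2 * ∫ t in (0:ℝ)..x, 1 / Real.log (t ^ 2 + t + A)) := by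
    have h3 := coef_eq Q hQ A hA
    rw [← hWdef, ← hcdef] at h3
    have h4 : ∀ t : ℝ, c / Real.log (t ^ 2 + t + A) = c * (1 / Real.log (t ^ 2 + t + A)) := by
      intro t
      rw [mul_one_div]
    simp_rw [h4]
    rw [intervalIntegral.integral_const_mul]
    calc (Nat.count (good (Fp A) W) W : ℝ) / W * (c * ∫ t in (0:ℝ)..x, 1 / Real.log (t ^ 2 + t + A))
        = ((Nat.count (good (Fp A) W) W : ℝ) / W * c) * ∫ t in (0:ℝ)..x, 1 / Real.log (t ^ 2 + t + A) := by ring
      _ = _ := by rw [h3]; ring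
  rw [h2] at h1
  set M := coef Q A * (2 * ∫ t in (0:ℝ)..x, 1 / Real.log (t ^ 2 + t + A))
  have h5 : |∑ m ∈ Finset.range (x + 1), rhoW W (m ^ 2 + m + A) -
      ∑ m ∈ Finset.range (x + 1), (if good (Fp A) W m then c / Real.log ((m : ℝ) ^ 2 + m + A) else 0)| ≤
      (Real.exp c + 1) * c := by
    rw [← Finset.sum_sub_distrib]
    refine (Finset.abs_sum_le_sum_abs _ _).trans ?_
    have h6 : ∀ m ∈ Finset.range (x + 1), |rhoW W (m ^ 2 + m + A) -
        (if good (Fp A) W m then c / Real.log ((m : ℝ) ^ 2 + m + A) else 0)| ≤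
        if m ∈ Finset.range (⌊Real.exp c⌋₊ + 1) then c else 0 := by
      intro m _
      have hl := log_ge hA3 (Nat.cast_nonneg m : (0:ℝ) ≤ m)
      unfold rhoW
      by_cases hg : good (Fp A) W m
      · have hcop := (good_iff A W m).1 hg
        rw [if_pos hcop, if_pos hg]
        push_cast
        rw [← hcdef]
        set l := Real.log ((m : ℝ) ^ 2 + m + A)
        by_cases h7 : c / l ≤ 1
        · rw [min_eq_right h7, sub_self, abs_zero]
          split_ifs
          · linarith
          · exact le_rfl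
        · push Not at h7
          rw [min_eq_left h7.le]
          have h8 : l < c := by
            rwa [lt_div_iff₀ (by linarith), one_mul] at h7
          have hA0 : (0 : ℝ) < A := by exact_mod_cast (show 0 < A by omega)
          have h9 : (m : ℝ) ^ 2 + m + A < Real.exp c := (Real.log_lt_iff_lt_exp (by positivity)).1 h8
          have h10 : m < ⌊Real.exp c⌋₊ + 1 := by
            rw [Nat.lt_succ_iff, Nat.le_floor_iff (Real.exp_pos c).le]
            nlinarith [sq_nonneg (m : ℝ)]
          rw [if_pos (Finset.mem_range.2 h10)]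
          have h11 : c / l ≤ c := div_le_self (by linarith) hl
          rw [abs_le]
          constructor <;> linarith
      · have hcop : ¬ Nat.Coprime (m ^ 2 + m + A) W := fun h => hg ((good_iff A W m).2 h)
        rw [if_neg hcop, if_neg hg, sub_self, abs_zero]
        split_ifs
        · linarith
        · exact le_rfl
    refine (Finset.sum_le_sum h6).trans ?_
    rw [← Finset.sum_filter, Finset.sum_const, nsmul_eq_mul]
    apply mul_le_mul_of_nonneg_right _ (by linarith)
    have h7 : ((Finset.range (x + 1)).filter (fun m => m ∈ Finset.range (⌊Real.exp c⌋₊ + 1))).card ≤ ⌊Real.exp c⌋₊ + 1 := by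
      calc _ ≤ (Finset.range (⌊Real.exp c⌋₊ + 1)).card := by
            apply Finset.card_le_card
            intro m hm
            exact (Finset.mem_filter.1 hm).2
        _ = _ := Finset.card_range _
    have h8 : (((Finset.range (x + 1)).filter (fun m => m ∈ Finset.range (⌊Real.exp c⌋₊ + 1))).card : ℝ) ≤
        (⌊Real.exp c⌋₊ : ℝ) + 1 := by exact_mod_cast h7
    have h9 := Nat.floor_le (Real.exp_pos c).le
    linarith
  have h6 : (W + 1) * (c / Real.log ((0 : ℝ) ^ 2 + 0 + A)) ≤ (W + 1) * c :=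
    mul_le_mul_of_nonneg_left hg0 (by positivity)
  have h7 := h1.trans h6
  set S := ∑ m ∈ Finset.range (x + 1), rhoW W (m ^ 2 + m + A)
  set G := ∑ m ∈ Finset.range (x + 1), (if good (Fp A) W m then c / Real.log ((m : ℝ) ^ 2 + m + A) else 0)
  have e : S - M = (S - G) + (G - M) := by ring
  rw [e]
  refine (abs_add_le _ _).trans ?_
  linarith

/-- a lower bound of the main term -/
lemma main_ge (Q : Finset ℕ) (hQ : ∀ p ∈ Q, p.Prime) (C : ℕ) (x A : ℕ) (hx : 3 ≤ x) (hA3 : 3 ≤ A)
    (hAx : A ≤ x ^ C) :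
    (∏ p ∈ Q.erase 2, (1 - 1 / ((p : ℝ) - 1))) * (x / ((C + 3) * Real.log x)) ≤
      coef Q A * (2 * ∫ t in (0:ℝ)..x, 1 / Real.log (t ^ 2 + t + A)) := by
  have hx' : (3 : ℝ) ≤ x := by exact_mod_cast hx
  have hL : 0 < Real.log x := Real.log_pos (by linarith)
  have h1 := coef_ge Q hQ A
  set π := ∏ p ∈ Q.erase 2, (1 - 1 / ((p : ℝ) - 1))
  have hA0 : (3 : ℝ) ≤ A := by exact_mod_cast hA3
  have h2 : ((x : ℝ) ^ 2 + x + A) ≤ (x : ℝ) ^ (C + 3) := by
    have h3 : (A : ℝ) ≤ (x : ℝ) ^ C := by exact_mod_cast hAx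
    have h4 : (1 : ℝ) ≤ (x : ℝ) ^ C := one_le_pow₀ (by linarith)
    have h5 : (x : ℝ) ^ (C + 3) = (x : ℝ) ^ C * x ^ 2 * x := by ring
    rw [h5]
    have h6 : (x : ℝ) ^ 2 ≤ (x : ℝ) ^ C * x ^ 2 := le_mul_of_one_le_left (by positivity) h4
    have h7 : (x : ℝ) ≤ x ^ 2 := by nlinarith
    have h8 : (x : ℝ) ^ C ≤ (x : ℝ) ^ C * x ^ 2 := le_mul_of_one_le_right (by positivity) (by nlinarith)
    nlinarith
  have h3 : ∀ t ∈ Icc (0:ℝ) x, 1 / ((C + 3) * Real.log x) ≤ 1 / Real.log (t ^ 2 + t + A) := by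
    intro t ht
    have h4 := log_ge hA3 ht.1
    apply one_div_le_one_div_of_le (by linarith)
    have h5 : Real.log (t ^ 2 + t + A) ≤ Real.log ((x : ℝ) ^ (C + 3)) := by
      apply Real.log_le_log (by nlinarith [ht.1, sq_nonneg t])
      refine le_trans ?_ h2
      have : t ^ 2 ≤ (x : ℝ) ^ 2 := pow_le_pow_left₀ ht.1 ht.2 2
      linarith [ht.2]
    rw [Real.log_pow] at h5
    push_cast at h5
    exact h5
  have h4 : x * (1 / ((C + 3) * Real.log x)) ≤ ∫ t in (0:ℝ)..x, 1 / Real.log (t ^ 2 + t + A) := by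
    have h5 : IntervalIntegrable (fun t : ℝ => 1 / Real.log (t ^ 2 + t + A)) volume 0 x := by
      apply AntitoneOn.intervalIntegrable
      rw [uIcc_of_le (by linarith)]
      intro s hs t ht hst
      have h1 := log_ge hA3 hs.1
      apply div_le_div_of_nonneg_left zero_le_one (by linarith)
      apply Real.log_le_log (by nlinarith [hs.1, sq_nonneg s])
      have : s ^ 2 ≤ t ^ 2 := pow_le_pow_left₀ hs.1 hst 2
      linarith
    have h6 := intervalIntegral.integral_mono_on (a := 0) (b := (x:ℝ)) (by linarith)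
      (intervalIntegrable_const (c := 1 / ((C + 3) * Real.log x))) h5 h3
    rw [intervalIntegral.integral_const, smul_eq_mul, sub_zero] at h6
    exact h6
  have h5 : (0:ℝ) ≤ x * (1 / ((C + 3) * Real.log x)) := by positivity
  calc π * (x / ((C + 3) * Real.log x)) = (1 / 2 * π) * (2 * (x * (1 / ((C + 3) * Real.log x)))) := by
        field_simp
    _ ≤ coef Q A * (2 * ∫ t in (0:ℝ)..x, 1 / Real.log (t ^ 2 + t + A)) := by
        apply mul_le_mul h1.1 (by linarith) (by positivity)
        exact le_trans (by nlinarith [h1.2]) h1.1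

end Pool.Agent.N860.HL
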