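import Mathlib
import Pool.Agent.N860.HL.Main

set_option autoImplicit false

/-! # The uniform law for the values of `x² + x + A` -/

open MeasureTheory Filter Set Polynomial
open scoped Topology

namespace Pool.Agent.N860.HL

open Pool.Agent.R528.RM Pool.Agent.N909.TF

/-- the arguments -/
def Jn (n : ℕ) : Finset ℕ := (Finset.range (n.unpair.1 + 1)).filter (fun m => 0 < m ^ 2 + m + n.unpair.2)

/-- the values -/
def Tn (n m : ℕ) : Finset ℕ := {m ^ 2 + m + n.unpair.2}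

/-- the admissible indices -/
def Sn (C : ℕ) : Set ℕ := {n | Odd n.unpair.2 ∧ 3 ≤ n.unpair.2 ∧ n.unpair.2 ≤ n.unpair.1 ^ C}

lemma Jn_eq {n : ℕ} (h : 3 ≤ n.unpair.2) : Jn n = Finset.range (n.unpair.1 + 1) := by
  unfold Jn
  apply Finset.filter_true_of_mem
  intro m _
  omega

lemma Tn_mult (n t : ℕ) : ((Jn n).filter (fun j => t ∈ Tn n j)).card ≤ 1 := by
  refine Finset.card_le_one.2 fun a ha b hb => ?_
  unfold Tn at ha hb
  simp only [Finset.mem_filter, Finset.mem_singleton] at ha hb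
  have h : a ^ 2 + a = b ^ 2 + b := by omega
  rcases lt_trichotomy a b with h1 | h1 | h1
  · nlinarith
  · exact h1
  · nlinarith

lemma fst_tendsto (C : ℕ) : Tendsto (fun n : ℕ => n.unpair.1) (atTop ⊓ 𝓟 (Sn C)) atTop := by
  rw [tendsto_atTop]
  intro B
  rw [eventually_inf_principal]
  filter_upwards [eventually_ge_atTop ((B ^ C + B + 1) ^ 2)] with n hn hS
  by_contra hcon
  push Not at hcon
  have h1 : n.unpair.1 ^ C ≤ B ^ C := Nat.pow_le_pow_left hcon.le C
  have h2 : max n.unpair.1 n.unpair.2 + 1 ≤ B ^ C + B + 1 := by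
    have := hS.2.2
    have h3 : max n.unpair.1 n.unpair.2 ≤ B ^ C + B := max_le (by omega) (by omega)
    omega
  have h3 := Nat.pair_lt_max_add_one_sq n.unpair.1 n.unpair.2
  rw [Nat.pair_unpair] at h3
  have h4 := Nat.pow_le_pow_left h2 2
  omega

lemma log_le (C n : ℕ) (hS : n ∈ Sn C) (hx : 3 ≤ n.unpair.1) :
    Real.log n ≤ (2 * C + 4) * Real.log (n.unpair.1 : ℕ) := by
  set x := n.unpair.1
  have h3 := Nat.pair_lt_max_add_one_sq n.unpair.1 n.unpair.2
  rw [Nat.pair_unpair] at h3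
  have h4 : max n.unpair.1 n.unpair.2 + 1 ≤ x ^ (C + 2) := by
    have h5 : x ^ C ≤ x ^ (C + 1) := Nat.pow_le_pow_right (by omega) (by omega)
    have h6 : x ≤ x ^ (C + 1) := Nat.le_self_pow (by omega) x
    have h7 : max n.unpair.1 n.unpair.2 ≤ x ^ (C + 1) := max_le h6 (hS.2.2.trans h5)
    have h8 : x ^ (C + 1) + 1 ≤ x ^ (C + 1) * x := by
      have : 1 ≤ x ^ (C + 1) := Nat.one_le_pow _ _ (by omega)
      nlinarith
    calc max n.unpair.1 n.unpair.2 + 1 ≤ x ^ (C + 1) + 1 := by omega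
      _ ≤ x ^ (C + 1) * x := h8
      _ = x ^ (C + 2) := by ring
  have h5 : n ≤ x ^ (2 * C + 4) := by
    have h6 := Nat.pow_le_pow_left h4 2
    have h7 : (x ^ (C + 2)) ^ 2 = x ^ (2 * C + 4) := by
      rw [← pow_mul]
      ring_nf
    omega
  rcases Nat.eq_zero_or_pos n with h0 | h0
  · rw [h0]
    simp only [Nat.cast_zero, Real.log_zero]
    have : 0 ≤ Real.log (x : ℕ) := Real.log_natCast_nonneg _
    positivity
  · have h6 : Real.log n ≤ Real.log ((x : ℝ) ^ (2 * C + 4)) := by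
      apply Real.log_le_log (by exact_mod_cast h0)
      exact_mod_cast h5
    rw [Real.log_pow] at h6
    push_cast at h6
    exact h6

variable {Ω : Type} {m0 : MeasurableSpace Ω} {μ : Measure Ω} [IsProbabilityMeasure μ]
  {ℱ : Filtration ℕ m0} {S : ℕ → Set Ω}

/-- the law for a fixed exponent -/
theorem uniform_law (hS : ∀ n, MeasurableSet[ℱ n] (S n)) (Q : Finset ℕ) (hQ : ∀ p ∈ Q, p.Prime)
    (hcop : ∀ n, (∃ p ∈ Q, p ∣ n) → S n = ∅)
    (hd : ∀ᵐ ω ∂μ, Tendsto (fun n : ℕ => dens μ ℱ S n ω * Real.log n)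
      (atTop ⊓ 𝓟 {n : ℕ | ∀ p ∈ Q, ¬ p ∣ n + 1}) (𝓝 (∏ p ∈ Q, (1 - 1 / (p : ℝ))⁻¹))) (C : ℕ) :
    ∀ᵐ ω ∂μ, ∀ ε : ℝ, 0 < ε → ∃ x₀ : ℕ, ∀ x ≥ x₀, ∀ A : ℕ, Odd A → 3 ≤ A → A ≤ x ^ C →
      |(({m : ℕ | m ≤ x ∧ ω ∈ S (m ^ 2 + m + A)}.ncard : ℕ) : ℝ) -
        coef Q A * (2 * ∫ t in (0:ℝ)..x, 1 / Real.log (t ^ 2 + t + A))| ≤
      ε * (coef Q A * (2 * ∫ t in (0:ℝ)..x, 1 / Real.log (t ^ 2 + t + A))) := by
  classical
  set W := ∏ p ∈ Q, p with hWdef
  have hW : 0 < W := Finset.prod_pos fun q hq => (hQ q hq).pos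
  have hc : ∀ n, Nat.Coprime n W ↔ ∀ p ∈ Q, ¬ p ∣ n := by
    intro n
    rw [hWdef, Nat.coprime_prod_right_iff]
    refine forall₂_congr fun p hp => ?_
    rw [Nat.coprime_comm]
    exact Nat.Prime.coprime_iff_not_dvd (hQ p hp)
  have hd' := dens_profile (μ := μ) hS W hW (fun n hn => hcop n (by
    rw [hc] at hn
    push Not at hn
    exact hn)) (by
    rw [totient_prod Q hQ]
    simp_rw [hc]
    exact hd)
  obtain ⟨K, hK0, hK⟩ := main_bound Q hQ
  rw [← hWdef] at hK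
  have hπ := (coef_ge Q hQ 0).2
  set π := ∏ p ∈ Q.erase 2, (1 - 1 / ((p : ℝ) - 1)) with hπdef
  -- the main term beats constants
  have hbig : ∀ B : ℝ, ∀ᶠ x : ℕ in atTop, B ≤ π * (x / ((C + 3) * Real.log x)) := by
    intro B
    have h1 := pow_log (π / (C + 3)) 1 (by positivity) one_pos 1
    filter_upwards [h1.eventually_ge_atTop B] with x hx
    refine hx.trans (le_of_eq ?_)
    rw [Real.rpow_one, pow_one]
    by_cases hl : Real.log x = 0
    · simp [hl]
    · field_simp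
  have hfst := fst_tendsto C
  -- sums of the profile
  have hsum : ∀ n ∈ Sn C, ∑ j ∈ Jn n, ∏ t ∈ Tn n j, rhoW W t =
      ∑ m ∈ Finset.range (n.unpair.1 + 1), rhoW W (m ^ 2 + m + n.unpair.2) := by
    intro n hn
    rw [Jn_eq hn.2.1]
    refine Finset.sum_congr rfl fun m _ => ?_
    unfold Tn
    rw [Finset.prod_singleton]
  have hE : Tendsto (fun n => (∑ j ∈ Jn n, ∏ t ∈ Tn n j, rhoW W t) / ((1 : ℕ) : ℝ) / Real.log n)
      (atTop ⊓ 𝓟 (Sn C)) atTop := by
    have h1 := (pow_log (π / (2 * (C + 3) * (2 * C + 4))) 1 (by positivity) one_pos 2).comp hfst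
    refine tendsto_atTop_mono' _ ?_ h1
    have h2 : ∀ᶠ n in atTop ⊓ 𝓟 (Sn C), n ∈ Sn C := eventually_inf_principal.2 (Eventually.of_forall fun n hn => hn)
    filter_upwards [h2, hfst.eventually (hbig (2 * K)), hfst.eventually_ge_atTop 3,
      (eventually_gt_atTop 1).filter_mono inf_le_left] with n g1 g2 g3 g4
    have hx' : (3 : ℝ) ≤ (n.unpair.1 : ℕ) := by exact_mod_cast g3
    have hL : 0 < Real.log (n.unpair.1 : ℕ) := Real.log_pos (by linarith)
    have hn : 0 < Real.log n := Real.log_pos (by exact_mod_cast g4)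
    have k1 := abs_le.1 (hK n.unpair.2 g1.1 g1.2.1 n.unpair.1)
    have k2 := main_ge Q hQ C n.unpair.1 n.unpair.2 g3 g1.2.1 g1.2.2
    have k3 := log_le C n g1 g3
    rw [hsum n g1]
    simp only [Function.comp_apply]
    rw [Nat.cast_one, div_one, Real.rpow_one]
    set x : ℝ := ((n.unpair.1 : ℕ) : ℝ)
    set E := ∑ m ∈ Finset.range (n.unpair.1 + 1), rhoW W (m ^ 2 + m + n.unpair.2)
    have k4 : 1 / 2 * (π * (x / ((C + 3) * Real.log x))) ≤ E := by linarith
    have k5 : π / (2 * (C + 3) * (2 * C + 4)) * x / Real.log x ^ 2 =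
        (1 / 2 * (π * (x / ((C + 3) * Real.log x)))) / ((2 * C + 4) * Real.log x) := by
      field_simp
    rw [k5]
    have hx0 : 0 < x := by linarith
    have k6 : 0 < 1 / 2 * (π * (x / ((C + 3) * Real.log x))) := by positivity
    exact div_le_div₀ (by linarith) k4 hn k3
  have hfam := families (μ := μ) hS (rhoW W) (fun n => ⟨rhoW_nonneg W n, rhoW_le W n⟩) hd' 1 Jn Tn (fun _ => 1)
    (fun n j _ => Finset.card_singleton _)
    (fun n j hj => by
      unfold Tn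
      rw [Finset.mem_singleton]
      have := (Finset.mem_filter.1 hj).2
      omega)
    Tn_mult (atTop ⊓ 𝓟 (Sn C)) inf_le_left hE
  filter_upwards [hfam] with ω hω ε hε
  set η : ℝ := min (ε / 3) 1 with hη
  have hη0 : 0 < η := by rw [hη]; positivity
  have hη1 : η ≤ 1 := min_le_right _ _
  have hηε : 3 * η ≤ ε := by
    have : η ≤ ε / 3 := min_le_left _ _
    linarith
  obtain ⟨N, hN⟩ := eventually_atTop.1 (eventually_inf_principal.1 (hω η hη0))
  obtain ⟨N', hN'⟩ := eventually_atTop.1 (hbig (K / η))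
  refine ⟨max (max N N') 3, fun x hx A hA hA3 hAx => ?_⟩
  have hx1 : N ≤ x := (le_max_left N N').trans ((le_max_left _ 3).trans hx)
  have hx2 : N' ≤ x := (le_max_right N N').trans ((le_max_left _ 3).trans hx)
  have hx3 : 3 ≤ x := (le_max_right _ 3).trans hx
  have hmem : Nat.pair x A ∈ Sn C := by
    unfold Sn
    simp only [Set.mem_ofPred_eq, Nat.unpair_pair]
    exact ⟨hA, hA3, hAx⟩
  have h1 := hN (Nat.pair x A) (hx1.trans (Nat.left_le_pair x A)) hmem
  rw [Mx_top (rhoW W) (Jn (Nat.pair x A)) (Tn (Nat.pair x A)) (k := 1) (fun j _ => Finset.card_singleton _),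
    hsum _ hmem] at h1
  have h2 : (((Jn (Nat.pair x A)).filter (fun j => ∀ t ∈ Tn (Nat.pair x A) j, ω ∈ S t)).card : ℝ) =
      (({m : ℕ | m ≤ x ∧ ω ∈ S (m ^ 2 + m + A)}.ncard : ℕ) : ℝ) := by
    rw [Jn_eq (by rw [Nat.unpair_pair]; exact hA3), ← Set.ncard_coe_finset]
    congr 2
    ext m
    unfold Tn
    simp only [Finset.coe_filter, Finset.mem_range, Finset.mem_singleton, forall_eq, Nat.unpair_pair,
      Set.mem_ofPred_eq, Nat.lt_succ_iff]
  rw [h2] at h1
  simp only [Nat.unpair_pair] at h1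
  have h3 := hK A hA hA3 x
  have h4 := main_ge Q hQ C x A hx3 hA3 hAx
  have h5 := hN' x hx2
  set R : ℝ := (({m : ℕ | m ≤ x ∧ ω ∈ S (m ^ 2 + m + A)}.ncard : ℕ) : ℝ)
  set M := coef Q A * (2 * ∫ t in (0:ℝ)..x, 1 / Real.log (t ^ 2 + t + A))
  set E := ∑ m ∈ Finset.range (x + 1), rhoW W (m ^ 2 + m + A)
  have h6 : K ≤ η * M := by
    have h7 : K / η ≤ M := h5.trans h4
    rw [div_le_iff₀ hη0] at h7
    linarith
  have h7 := h3.trans h6
  have k1 := abs_le.1 h1
  have k2 := abs_le.1 h7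
  have hM0 : 0 ≤ η * M := hK0.trans h6
  have k3 : η * E ≤ η * ((1 + η) * M) := mul_le_mul_of_nonneg_left (by linarith) hη0.le
  have k4 : η * (η * M) ≤ 1 * (η * M) := mul_le_mul_of_nonneg_right hη1 hM0
  have hM1 : 0 ≤ M := by
    by_contra hcon
    push Not at hcon
    nlinarith
  have k5 : 3 * η * M ≤ ε * M := mul_le_mul_of_nonneg_right hηε hM1
  rw [abs_le]
  constructor <;> nlinarith

end Pool.Agent.N860.HL
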